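import Mathlib

/-!
# Translated theta functions: product formula, one-dimensional estimates
-/

namespace Pool.Agent.R783.GF

open Real

/-- product of summable families over `Fin k → ℤ` -/
theorem summ_prod : ∀ (k : ℕ) (f : Fin k → ℤ → ℝ), (∀ i n, 0 ≤ f i n) → (∀ i, Summable (f i)) →
    Summable (fun m : Fin k → ℤ => ∏ i, f i (m i)) ∧
      ∑' m : Fin k → ℤ, ∏ i, f i (m i) = ∏ i, ∑' n, f i n := by
  intro k
  induction k with
  | zero =>
    intro f _ _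
    have : Unique (Fin 0 → ℤ) := Pi.uniqueOfIsEmpty _
    have h := hasSum_unique (fun m : Fin 0 → ℤ => ∏ i, f i (m i))
    refine ⟨h.summable, ?_⟩
    rw [h.tsum_eq]
    rw [Fin.prod_univ_zero, Fin.prod_univ_zero]
  | succ k ih =>
    intro f h0 hs
    obtain ⟨h1, h2⟩ := ih (fun i => f i.succ) (fun i n => h0 _ n) (fun i => hs _)
    have hn : 0 ≤ (fun m : Fin k → ℤ => ∏ i, f (Fin.succ i) (m i)) := by
      intro m
      exact Finset.prod_nonneg (fun i _ => h0 _ _)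
    have hn0 : 0 ≤ f 0 := fun n => h0 0 n
    have hp : Summable (fun x : ℤ × (Fin k → ℤ) => f 0 x.1 * ∏ i, f (Fin.succ i) (x.2 i)) := by
      have := Summable.mul_of_nonneg (f := f 0)
        (g := fun m : Fin k → ℤ => ∏ i, f (Fin.succ i) (m i)) (hs 0) h1 hn0 hn
      exact this
    have hkey : ∀ x : ℤ × (Fin k → ℤ), (∏ i, f i ((Fin.consEquiv (fun _ => ℤ)) x i)) =
        f 0 x.1 * ∏ i, f (Fin.succ i) (x.2 i) := by
      intro x
      rw [Fin.prod_univ_succ]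
      simp [Fin.consEquiv]
    constructor
    · rw [← (Fin.consEquiv (fun _ : Fin (k+1) => ℤ)).summable_iff]
      refine hp.congr ?_
      intro x
      exact (hkey x).symm
    · rw [← (Fin.consEquiv (fun _ : Fin (k+1) => ℤ)).tsum_eq]
      have := Summable.tsum_mul_tsum (f := f 0)
        (g := fun m : Fin k → ℤ => ∏ i, f (Fin.succ i) (m i)) (hs 0) h1 hp
      rw [tsum_congr hkey, ← this, h2, Fin.prod_univ_succ]

theorem summ_gauss {c : ℝ} (hc : 0 < c) : Summable (fun n : ℤ => exp (-(c * (n : ℝ) ^ 2))) := by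
  have h := summable_pow_mul_jacobiTheta₂_term_bound 0 (T := c / π) (by positivity) 0
  refine h.congr ?_
  intro n
  rw [pow_zero, one_mul]
  congr 1
  field_simp
  ring

theorem sq_ge {s t : ℝ} (n : ℝ) : (s * n) ^ 2 / 2 - t ^ 2 ≤ (s * n + t) ^ 2 := by
  nlinarith [sq_nonneg (s * n + 2 * t)]

/-- `x * exp (- c x^2) ≤ C * exp (- c x^2 / 2)` -/
theorem lin_exp {c : ℝ} (hc : 0 < c) (x : ℝ) : |x| * exp (-(c * x ^ 2)) ≤
    (1 + 2 / c) * exp (-(c / 2 * x ^ 2)) := by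
  have h1 : exp (-(c * x ^ 2)) = exp (-(c / 2 * x ^ 2)) * exp (-(c / 2 * x ^ 2)) := by
    rw [← exp_add]; congr 1; ring
  have h2 : |x| * exp (-(c / 2 * x ^ 2)) ≤ 1 + 2 / c := by
    have h3 : |x| ≤ 1 + x ^ 2 := by
      rw [← sq_abs]; nlinarith [sq_nonneg (|x| - 1), abs_nonneg x]
    have h4 : c / 2 * x ^ 2 + 1 ≤ exp (c / 2 * x ^ 2) := add_one_le_exp _
    have h5 : 1 + x ^ 2 ≤ (1 + 2 / c) * (c / 2 * x ^ 2 + 1) := by
      have : (1 + 2 / c) * (c / 2 * x ^ 2 + 1) = c / 2 * x ^ 2 + 1 + x ^ 2 + 2 / c := by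
        field_simp; ring
      rw [this]
      have : 0 ≤ c / 2 * x ^ 2 + 2 / c := by positivity
      linarith
    have h6 : 1 + x ^ 2 ≤ (1 + 2 / c) * exp (c / 2 * x ^ 2) :=
      h5.trans (mul_le_mul_of_nonneg_left h4 (by positivity))
    calc |x| * exp (-(c / 2 * x ^ 2)) ≤ ((1 + 2 / c) * exp (c / 2 * x ^ 2)) *
          exp (-(c / 2 * x ^ 2)) := mul_le_mul_of_nonneg_right (h3.trans h6) (exp_pos _).le
      _ = 1 + 2 / c := by rw [mul_assoc, ← exp_add]; simp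
  rw [h1, ← mul_assoc]
  exact mul_le_mul_of_nonneg_right h2 (exp_pos _).le

/-- one-dimensional theta function -/
noncomputable def g (c s t : ℝ) : ℝ := ∑' n : ℤ, exp (-(c * (s * n + t) ^ 2))

/-- its derivative -/
noncomputable def g' (c s t : ℝ) : ℝ :=
  ∑' n : ℤ, -(2 * c * (s * n + t)) * exp (-(c * (s * n + t) ^ 2))

theorem summ_g {c s : ℝ} (hc : 0 < c) (hs : s ≠ 0) (t : ℝ) :
    Summable (fun n : ℤ => exp (-(c * (s * n + t) ^ 2))) := by
  have hs2 : 0 < s ^ 2 := by positivity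
  have h := (summ_gauss (c := c * s ^ 2 / 2) (by positivity)).mul_left (exp (c * t ^ 2))
  refine Summable.of_nonneg_of_le (fun n => (exp_pos _).le) (fun n => ?_) h
  rw [← exp_add]
  apply exp_le_exp.mpr
  have := mul_le_mul_of_nonneg_left (sq_ge (s := s) (t := t) n) hc.le
  linarith [show c * ((s * n) ^ 2 / 2 - t ^ 2) = c * s ^ 2 / 2 * (n:ℝ) ^ 2 - c * t ^ 2 by ring]

theorem bd_g' {c s : ℝ} (hc : 0 < c) (hs : s ≠ 0) (B : ℝ) :
    ∃ u : ℤ → ℝ, Summable u ∧ ∀ (n : ℤ) (t : ℝ), |t| ≤ B →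
      |(-(2 * c * (s * n + t)) * exp (-(c * (s * n + t) ^ 2)))| ≤ u n := by
  have hs2 : 0 < s ^ 2 := by positivity
  refine ⟨fun n => (2 * c * (1 + 2 / c) * exp (c / 2 * B ^ 2)) *
    exp (-(c * s ^ 2 / 4 * (n : ℝ) ^ 2)), (summ_gauss (by positivity)).mul_left _, ?_⟩
  intro n t ht
  have h1 := lin_exp hc (s * n + t)
  rw [abs_mul, abs_neg, abs_mul, abs_of_pos (show 0 < 2 * c by positivity),
    abs_of_pos (exp_pos _), mul_assoc]
  have h2 : exp (-(c / 2 * (s * n + t) ^ 2)) ≤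
      exp (c / 2 * B ^ 2) * exp (-(c * s ^ 2 / 4 * (n : ℝ) ^ 2)) := by
    rw [← exp_add]
    apply exp_le_exp.mpr
    have h3 : t ^ 2 ≤ B ^ 2 := by
      rw [← sq_abs t]
      have := abs_nonneg t
      nlinarith
    have := mul_le_mul_of_nonneg_left (sq_ge (s := s) (t := t) n) hc.le
    have h4 := mul_le_mul_of_nonneg_left h3 hc.le
    linarith [show c * ((s * n) ^ 2 / 2 - t ^ 2) = c * s ^ 2 / 2 * (n:ℝ) ^ 2 - c * t ^ 2 by ring,
      show c * s ^ 2 / 4 * (n:ℝ) ^ 2 = (c * s ^ 2 / 2 * (n:ℝ) ^ 2) / 2 by ring]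
  calc 2 * c * (|s * n + t| * exp (-(c * (s * n + t) ^ 2)))
      ≤ 2 * c * ((1 + 2 / c) * exp (-(c / 2 * (s * n + t) ^ 2))) :=
        mul_le_mul_of_nonneg_left h1 (by positivity)
    _ ≤ 2 * c * ((1 + 2 / c) * (exp (c / 2 * B ^ 2) * exp (-(c * s ^ 2 / 4 * (n : ℝ) ^ 2)))) := by
        apply mul_le_mul_of_nonneg_left _ (by positivity)
        exact mul_le_mul_of_nonneg_left h2 (by positivity)
    _ = _ := by ring

theorem summ_g' {c s : ℝ} (hc : 0 < c) (hs : s ≠ 0) (t : ℝ) :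
    Summable (fun n : ℤ => -(2 * c * (s * n + t)) * exp (-(c * (s * n + t) ^ 2))) := by
  obtain ⟨u, hu, h⟩ := bd_g' hc hs |t|
  exact Summable.of_norm_bounded hu (fun n => h n t le_rfl)

theorem hasDeriv_g {c s : ℝ} (hc : 0 < c) (hs : s ≠ 0) (t : ℝ) :
    HasDerivAt (g c s) (g' c s t) t := by
  obtain ⟨u, hu, h⟩ := bd_g' hc hs (|t| + 1)
  have hmem : t ∈ Set.Ioo (-(|t| + 1)) (|t| + 1) := by
    constructor
    · linarith [neg_abs_le t]
    · linarith [le_abs_self t]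
  have h1 : ∀ (n : ℤ) (y : ℝ), y ∈ Set.Ioo (-(|t| + 1)) (|t| + 1) →
      HasDerivAt (fun z : ℝ => exp (-(c * (s * n + z) ^ 2)))
        (-(2 * c * (s * n + y)) * exp (-(c * (s * n + y) ^ 2))) y := by
    intro n y _
    have h1 : HasDerivAt (fun y : ℝ => -(c * (s * n + y) ^ 2)) (-(2 * c * (s * n + y))) y := by
      have h0 : HasDerivAt (fun y : ℝ => s * n + y) 1 y := (hasDerivAt_id y).const_add (s * n)
      have := ((h0.pow 2).const_mul c).neg
      refine this.congr_deriv ?_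
      simp only [Nat.cast_ofNat, Nat.add_one_sub_one, pow_one, mul_one]
      ring
    exact h1.exp.congr_deriv (by ring)
  have h2 : ∀ (n : ℤ) (y : ℝ), y ∈ Set.Ioo (-(|t| + 1)) (|t| + 1) →
      ‖-(2 * c * (s * n + y)) * exp (-(c * (s * n + y) ^ 2))‖ ≤ u n := by
    intro n y hy
    exact h n y (abs_le.mpr ⟨hy.1.le, hy.2.le⟩)
  exact hasDerivAt_tsum_of_isPreconnected hu isOpen_Ioo isPreconnected_Ioo h1 h2 hmem
    (summ_g hc hs t) hmem

/-- the constant `∑ 1/n^2` over the nonzero integers -/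
noncomputable def Z2 : ℝ := ∑' n : ℤ, 1 / (n : ℝ) ^ 2

theorem summ_Z2 : Summable (fun n : ℤ => 1 / (n : ℝ) ^ 2) :=
  Real.summable_one_div_int_pow.mpr (by norm_num)

/-- removing the central term -/
theorem tail_bd {φ : ℝ → ℝ} {K R T t : ℝ} (hK : 0 ≤ K)
    (hφ : ∀ x : ℝ, 1 ≤ |x| → |φ x| ≤ K / x ^ 2)
    (hT : 2 ≤ T) (hTR : 2 * R ≤ T) (ht : |t| ≤ R) (hs : Summable (fun n : ℤ => φ (T * n + t))) :
    |(∑' n : ℤ, φ (T * n + t)) - φ t| ≤ 4 * K * Z2 / T ^ 2 := by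
  have h1 : ∑' n : ℤ, φ (T * n + t) = φ (T * (0 : ℤ) + t) +
      ∑' n : ℤ, (if n = 0 then 0 else φ (T * n + t)) := hs.tsum_eq_add_tsum_ite 0
  have h0 : φ (T * (0 : ℤ) + t) = φ t := by simp
  rw [h1, h0, add_sub_cancel_left]
  have hb : ∀ n : ℤ, ‖(if n = 0 then 0 else φ (T * n + t))‖ ≤
      (4 * K / T ^ 2) * (1 / (n : ℝ) ^ 2) := by
    intro n
    by_cases hn : n = 0
    · simp [hn]
    rw [if_neg hn, Real.norm_eq_abs]
    have hn1 : (1 : ℝ) ≤ |(n : ℝ)| := by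
      rw [← Int.cast_abs]
      exact_mod_cast Int.one_le_abs hn
    have hx : T * |(n : ℝ)| / 2 ≤ |T * n + t| := by
      have h2 : |T * n| - |t| ≤ |T * n + t| := by
        have := abs_sub_abs_le_abs_sub (T * n) (-t)
        rwa [abs_neg, sub_neg_eq_add] at this
      rw [abs_mul, abs_of_pos (by linarith : 0 < T)] at h2
      nlinarith
    have hx1 : 1 ≤ |T * n + t| := by nlinarith
    refine (hφ _ hx1).trans ?_
    have hpos : 0 < T * |(n : ℝ)| / 2 := by positivity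
    have h3 : (T * |(n : ℝ)| / 2) ^ 2 ≤ (T * n + t) ^ 2 := by
      rw [← sq_abs (T * n + t)]
      exact pow_le_pow_left₀ hpos.le hx 2
    calc K / (T * n + t) ^ 2 ≤ K / (T * |(n : ℝ)| / 2) ^ 2 :=
          div_le_div_of_nonneg_left hK (by positivity) h3
      _ = (4 * K / T ^ 2) * (1 / (n : ℝ) ^ 2) := by
          rw [div_pow, mul_pow, sq_abs]
          have : (n : ℝ) ≠ 0 := by exact_mod_cast hn
          field_simp
          norm_num
  have hsum : Summable (fun n : ℤ => (4 * K / T ^ 2) * (1 / (n : ℝ) ^ 2)) :=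
    summ_Z2.mul_left _
  have := tsum_of_norm_bounded hsum.hasSum hb
  rw [Real.norm_eq_abs] at this
  refine this.trans (le_of_eq ?_)
  rw [tsum_mul_left]
  unfold Z2
  ring

theorem phi1 {c : ℝ} (hc : 0 < c) (x : ℝ) (hx : 1 ≤ |x|) :
    |exp (-(c * x ^ 2))| ≤ (1 / c) / x ^ 2 := by
  have hx2 : 0 < x ^ 2 := by
    rw [← sq_abs]; positivity
  rw [abs_of_pos (exp_pos _), exp_neg, div_div, one_div]
  apply inv_anti₀ (by positivity)
  have := add_one_le_exp (c * x ^ 2)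
  linarith

theorem phi2 {c : ℝ} (hc : 0 < c) (x : ℝ) (hx : 1 ≤ |x|) :
    |(-(2 * c * x) * exp (-(c * x ^ 2)))| ≤ (4 / c) / x ^ 2 := by
  have hx2 : 0 < x ^ 2 := by
    rw [← sq_abs]; positivity
  have hx0 : 0 < |x| := by linarith
  rw [abs_mul, abs_neg, abs_mul, abs_of_pos (show 0 < 2 * c by positivity),
    abs_of_pos (exp_pos _), exp_neg]
  have h1 : (c * x ^ 2) ^ 2 / 2 ≤ exp (c * x ^ 2) := by
    have := Real.quadratic_le_exp_of_nonneg (show 0 ≤ c * x ^ 2 by positivity)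
    nlinarith [show 0 ≤ c * x ^ 2 by positivity]
  have h2 : (exp (c * x ^ 2))⁻¹ ≤ ((c * x ^ 2) ^ 2 / 2)⁻¹ := inv_anti₀ (by positivity) h1
  calc 2 * c * |x| * (exp (c * x ^ 2))⁻¹ ≤ 2 * c * |x| * ((c * x ^ 2) ^ 2 / 2)⁻¹ :=
        mul_le_mul_of_nonneg_left h2 (by positivity)
    _ = (4 / c) / x ^ 2 * (|x| / x ^ 2) := by field_simp; ring
    _ ≤ (4 / c) / x ^ 2 * 1 := by
        apply mul_le_mul_of_nonneg_left _ (by positivity)
        rw [div_le_one hx2, ← sq_abs]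
        nlinarith
    _ = _ := mul_one _

end Pool.Agent.R783.GF
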